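import Mathlib
import Pool.Agent.Q81.Cost

/-!
# The cost matrix of a closed loop grows at least linearly with its decay rate
-/

namespace Pool.Agent.Results.MP_cf5fc4_an.CostGrowsWithDecay

open Filter MeasureTheory
open scoped Matrix ComplexOrder Matrix.Norms.L2Operator

/-- Every eigenvalue of `M` has negative real part. -/
def Stable {n : ℕ} (M : Matrix (Fin n) (Fin n) ℂ) : Prop :=
  ∀ z ∈ spectrum ℂ M, z.re < 0

/-- The decay rate `min {-Re λ : λ an eigenvalue of M}`. -/
noncomputable def decayRate {n : ℕ} (M : Matrix (Fin n) (Fin n) ℂ) : ℝ :=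
  sInf ((fun z : ℂ => -z.re) '' spectrum ℂ M)

/-- The cost matrix `X₀ = ∫_0^∞ exp (t M)ᴴ exp (t M) dt`. -/
noncomputable def costMatrix {n : ℕ} (M : Matrix (Fin n) (Fin n) ℂ) :
    Matrix (Fin n) (Fin n) ℂ :=
  ∫ t in Set.Ioi (0 : ℝ), (NormedSpace.exp (t • M))ᴴ * NormedSpace.exp (t • M)

/-- For given `1 ≤ m < n` and `A` there is a function `G` with `G(x) → ∞` as `x → ∞`, namely
`G(x) = x / (2 n ‖A‖²)` when `A ≠ 0`, such that `‖X₀‖ ≥ G(γ_decay(A - B F))` for all `B` and `F`
for which `A - B F` is stable (`‖·‖` is the operator norm induced by the Euclidean norm). -/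
theorem result : ∀ n m : ℕ, 1 ≤ m → m < n → ∀ A : Matrix (Fin n) (Fin n) ℂ,
    ∃ G : ℝ → ℝ, Tendsto G atTop atTop ∧ (A ≠ 0 → ∀ x, G x = x / (2 * n * ‖A‖ ^ 2)) ∧
      ∀ (B : Matrix (Fin n) (Fin m) ℂ) (F : Matrix (Fin m) (Fin n) ℂ), Stable (A - B * F) →
        G (decayRate (A - B * F)) ≤ ‖costMatrix (A - B * F)‖ := by
  intro n m _ hmn A
  have : Nonempty (Fin n) := ⟨⟨0, by omega⟩⟩
  have hn : (0 : ℝ) < n := by exact_mod_cast (by omega : 0 < n)
  -- the main inequality
  have hmain : ∀ (B : Matrix (Fin n) (Fin m) ℂ) (F : Matrix (Fin m) (Fin n) ℂ),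
      Stable (A - B * F) → 0 < decayRate (A - B * F) ∧
        decayRate (A - B * F) ≤ 2 * n * ‖A‖ ^ 2 * ‖costMatrix (A - B * F)‖ := by
    intro B F hst
    set M := A - B * F with hM
    have hcomp : IsCompact (spectrum ℂ M) := spectrum.isCompact M
    have hne : (spectrum ℂ M).Nonempty :=
      spectrum.nonempty_of_isAlgClosed_of_finiteDimensional ℂ M
    have hcont : Continuous fun z : ℂ => -z.re := Complex.continuous_re.neg
    have hcomp' := hcomp.image hcont
    have hmem : decayRate M ∈ (fun z : ℂ => -z.re) '' spectrum ℂ M :=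
      hcomp'.sInf_mem (hne.image _)
    have hpos : 0 < decayRate M := by
      obtain ⟨z, hz, hz2⟩ := hmem
      have := hst z hz
      simp only at hz2
      linarith
    refine ⟨hpos, ?_⟩
    obtain ⟨y, hy, hBy⟩ := Q81.Lqr.exists_ker hmn B
    refine Q81.Cost.gap_le hpos (fun z hz => ?_) hy ?_
    · have := csInf_le hcomp'.bddBelow ⟨z, hz, rfl⟩
      have h2 : decayRate M ≤ -z.re := this
      linarith
    · rw [hM, Matrix.conjTranspose_sub, Matrix.conjTranspose_mul, Matrix.sub_mulVec,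
        ← Matrix.mulVec_mulVec, hBy, Matrix.mulVec_zero, sub_zero]
  by_cases hA : A = 0
  · refine ⟨fun x => x, tendsto_id, fun h => absurd hA h, fun B F hst => ?_⟩
    obtain ⟨h1, h2⟩ := hmain B F hst
    exfalso
    rw [hA] at h1 h2
    simp at h2
    simp at h1
    linarith
  · refine ⟨fun x => x / (2 * n * ‖A‖ ^ 2), ?_, fun _ _ => rfl, fun B F hst => ?_⟩
    · have hA' : 0 < ‖A‖ := norm_pos_iff.2 hA
      exact tendsto_id.atTop_div_const (by positivity)
    · obtain ⟨h1, h2⟩ := hmain B F hst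
      have hA' : 0 < ‖A‖ := norm_pos_iff.2 hA
      show decayRate (A - B * F) / (2 * n * ‖A‖ ^ 2) ≤ _
      rw [div_le_iff₀ (by positivity)]
      linarith

end Pool.Agent.Results.MP_cf5fc4_an.CostGrowsWithDecay
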